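import Pool.Agent.Helper68.SG2.GoalsE

/-!
# Packet SH2-LAW1
-/

set_option autoImplicit false

open MvPolynomial

namespace Pool.Agent.Helper73.SG2

open WeierstrassCurve Height Height.AdmissibleAbsValues
open Pool.Agent.Helper29.BL Pool.Agent.Helper92.Ru Pool.Agent.Helper42.SG Pool.Agent.Helper68.SG2

theorem plc_const {K : Type} [Field K] [NumberField K] :
    PlC (fun _ : AbsoluteValue K ℝ => (1 : ℝ)) := by
  refine ⟨fun _ => le_rfl, ?_⟩
  unfold FS
  simp only [Real.log_one]
  have h : (Function.support fun _ : nonarchAbsVal (K := K) => (0 : ℝ)) = ∅ := by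
    ext
    simp
  rw [h]
  exact Set.finite_empty

theorem t_LAW1 (hL : ELAW) (hO : ELOC) : Pool.Agent.Helper68.SG2.LAW1 := by
  intro K _ _ _ W t H co cp c₀ hF
  cases t with
  | false =>
    obtain ⟨hE, hco⟩ := hF.ell rfl
    have hcoe : ∀ P, co P = xc P := fun P => (hco P).1
    have hcpe : ∀ P, cp P = ps P := fun P => (hco P).2
    obtain ⟨B, hB, hB2⟩ := hO K W
    refine ⟨B, hB, fun P Q e hP hQ hH => ?_⟩
    have hsc : sc1 false e P = (2 ^ e) • P := by
      unfold sc1
      rfl
    rw [hsc] at hH ⊢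
    have hne : (2 ^ e) • P + Q ≠ 0 := by
      intro h0
      have h1 : (2 ^ e) • P = -Q := eq_neg_of_add_eq_zero_left h0
      have h2 : (2 ^ e) • P - Q = -((2 : ℕ) • Q) := by
        rw [h1, two_nsmul]
        abel
      rw [h2, hF.neg, hF.mul 2 Q] at hH
      norm_num at hH
    obtain ⟨h1, h2, h3, h4, h5⟩ := hL K W P Q e two_ne_zero hP hQ hne
    have hlo : lo1 false W e (co P) (co Q) (cp P) (cp Q) =
        law W e false (xc P) (xc Q) (ps P * ps Q) := by
      rw [hcoe, hcoe, hcpe, hcpe]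
      rfl
    refine ⟨xc ((2 ^ e) • P + Q), ?_, ?_, ?_, ?_⟩
    · rw [hlo]
      exact h1
    · rw [hlo, hcoe]
      intro h6
      by_cases h7 : (2 ^ e) • P - Q = 0
      · exact absurd (h3 h7) h6
      · exact (h2 h7).2
    · rw [hlo, hcoe]
      intro h6
      by_cases h7 : (2 ^ e) • P - Q = 0
      · rw [h7]
        rfl
      · exact absurd h6 (h2 h7).1
    · intro _
      rw [hcoe, hcoe, hcpe, hcpe]
      exact ⟨h4, h5, fun v => hB2 v P Q e hP hQ hne⟩
  | true =>
    obtain ⟨hm, hinv, -, -⟩ := hF.gm rfl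
    have h0 : co 0 = 1 := by
      have h := hm 0 0
      rw [add_zero] at h
      exact (mul_eq_left₀ (hinv 0).1).1 h.symm
    have hpow : ∀ (n : ℕ) P, co (n • P) = co P ^ n := by
      intro n P
      induction n with
      | zero => rw [zero_smul, h0, pow_zero]
      | succ n ih => rw [succ_nsmul, hm, ih, pow_succ]
    refine ⟨fun _ => 1, plc_const, fun P Q e hP hQ _ => ?_⟩
    have hlo : lo1 true W e (co P) (co Q) (cp P) (cp Q) = (co Q, co P ^ 4 ^ e) := by
      unfold lo1
      rfl
    have hsc : sc1 true e P = (4 ^ e) • P := by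
      unfold sc1
      rfl
    refine ⟨0, ?_, ?_, ?_, ?_⟩
    · rw [hlo]
      exact Or.inl (hinv Q).1
    · rw [hlo, hsc]
      intro _
      show co P ^ 4 ^ e = co ((4 ^ e) • P - Q) * co Q
      rw [← hm, sub_add_cancel, hpow]
    · rw [hlo]
      intro h
      exact absurd h (hinv Q).1
    · intro h
      exact absurd h (by decide)

end Pool.Agent.Helper73.SG2
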